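import Pool.Agent.Lib.MP_d55432_al.G2.Iface

/-!
# G2: NRM, norms from the torus to the ring of invariants
-/

namespace Pool.Agent.Lib.MP_d55432_al.G2.H14

open MvPolynomial

variable {K : Type*} [Field K]

theorem isIntegral_of_X {n : ℕ}
    (ψ : MvPolynomial (Fin n) K →ₐ[K] MvPolynomial (Fin n) K)
    (h : ∀ i, ψ.toRingHom.IsIntegralElem (X i)) : ψ.toRingHom.IsIntegral := by
  intro p
  induction p using MvPolynomial.induction_on with
  | C a =>
    have h1 := ψ.toRingHom.isIntegralElem_map (x := C a)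
    have h2 : ψ.toRingHom (C a) = C a := ψ.commutes a
    rwa [h2] at h1
  | add p q hp hq => exact RingHom.IsIntegralElem.add _ hp hq
  | mul_X p i hp => exact RingHom.IsIntegralElem.mul _ hp (h i)

theorem exists_norm_gen {n : ℕ}
    (ψ : MvPolynomial (Fin n) K →ₐ[K] MvPolynomial (Fin n) K)
    (h : ∀ i, ψ.toRingHom.IsIntegralElem (X i)) (G : MvPolynomial (Fin n) K) (hG : G ≠ 0) :
    ∃ Φ, Φ ≠ 0 ∧ G ∣ ψ Φ := by
  have h1 := @Ideal.comap_ne_bot_of_integral_mem (MvPolynomial (Fin n) K) _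
    (MvPolynomial (Fin n) K) _ (Ideal.span {G}) ψ.toRingHom.toAlgebra _ _ G hG
    (Ideal.mem_span_singleton_self G) (isIntegral_of_X ψ h G)
  obtain ⟨Φ, hΦ, hΦ0⟩ := Submodule.exists_mem_ne_zero_of_ne_bot h1
  exact ⟨Φ, hΦ0, Ideal.mem_span_singleton.1 (Ideal.mem_comap.1 hΦ)⟩

theorem eval_aeval {n m : ℕ} (B : Fin n → MvPolynomial (Fin m) K) (Φ : MvPolynomial (Fin n) K)
    (x : Fin m → K) : eval x (aeval B Φ) = eval (fun i => eval x (B i)) Φ := by
  induction Φ using MvPolynomial.induction_on with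
  | C a => simp
  | add p q hp hq => rw [map_add, map_add, map_add, hp, hq]
  | mul_X p i hp => rw [map_mul, map_mul, map_mul, hp, aeval_X, eval_X]

theorem nrm_gen {n : ℕ} (B : Fin n → MvPolynomial (Fin n) K)
    (h : ∀ i, (aeval B : MvPolynomial (Fin n) K →ₐ[K] _).toRingHom.IsIntegralElem (X i))
    (G : MvPolynomial (Fin n) K) (hG : G ≠ 0) : ∃ Φ : MvPolynomial (Fin n) K, Φ ≠ 0 ∧
      ∀ l : Fin n → K, eval l G = 0 → eval (fun i => eval l (B i)) Φ = 0 := by
  obtain ⟨Φ, hΦ, R, hR⟩ := exists_norm_gen _ h G hG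
  refine ⟨Φ, hΦ, fun l hl => ?_⟩
  rw [← eval_aeval, hR, map_mul, hl, zero_mul]

/-- The invariants on the torus. -/
noncomputable def BG (K : Type*) [Field K] : Fin 2 → MvPolynomial (Fin 2) K :=
  ![X 0 ^ 2 + X 1 ^ 2 + (X 0 + X 1) ^ 2, (X 0 * X 1 * (X 0 + X 1)) ^ 2]

theorem nrm (K : Type*) [Field K] [CharZero K] : NRM_S K := by
  intro G hG
  have hroot : ∀ i, (aeval (BG K) : MvPolynomial (Fin 2) K →ₐ[K] _).toRingHom.IsIntegralElem
      (X i) := by
    intro i
    refine ⟨(Polynomial.X ^ 3 - Polynomial.C (C (1 / 2) * X 0) * Polynomial.X) ^ 2 -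
      Polynomial.C (X 1), ?_, ?_⟩
    · monicity!
    · apply MvPolynomial.funext
      intro v
      have h0 : (aeval (BG K) : MvPolynomial (Fin 2) K →ₐ[K] _).toRingHom (X 0) = BG K 0 :=
        aeval_X _ _
      have h1 : (aeval (BG K) : MvPolynomial (Fin 2) K →ₐ[K] _).toRingHom (X 1) = BG K 1 :=
        aeval_X _ _
      have hc : ∀ a : K, (aeval (BG K) : MvPolynomial (Fin 2) K →ₐ[K] _).toRingHom (C a) = C a :=
        fun a => AlgHom.commutes _ a
      simp only [Polynomial.eval₂_sub, Polynomial.eval₂_mul,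
        Polynomial.eval₂_pow, Polynomial.eval₂_X, Polynomial.eval₂_C, map_mul, map_pow,
        h0, h1, hc, map_sub, eval_C, eval_X, map_zero]
      fin_cases i
      · simp [BG]
        field_simp
        ring
      · simp [BG]
        field_simp
        ring
  obtain ⟨Φ, hΦ, h⟩ := nrm_gen (BG K) hroot G hG
  refine ⟨Φ, hΦ, fun l m hl => ?_⟩
  have h1 := h ![l, m] hl
  have h2 : (fun i => eval ![l, m] (BG K i)) =
      ![l ^ 2 + m ^ 2 + (l + m) ^ 2, (l * m * (l + m)) ^ 2] := by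
    funext i
    fin_cases i
    · simp [BG]
    · simp [BG]
  rwa [h2] at h1

end Pool.Agent.Lib.MP_d55432_al.G2.H14
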